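import Pool.Agent.helper4.T7.SpecR

set_option autoImplicit false

/-! Row RPC of project T7: the upper bound for one pair. -/

namespace Pool.Agent.T7

open Finset Pool.Agent.helper3.FT Pool.Agent.T5 Pool.Agent.T6

theorem RPC_e_add (a b : ℝ) : e (a + b) = e a * e b := by
  unfold e
  rw [← Complex.exp_add]
  congr 1
  push_cast
  ring

theorem RPC_e_norm (a : ℝ) : ‖e a‖ = 1 := by
  unfold e
  have h : 2 * (Real.pi : ℂ) * Complex.I * a = ((2 * Real.pi * a : ℝ) : ℂ) * Complex.I := by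
    push_cast
    ring
  rw [h]
  exact Complex.norm_exp_ofReal_mul_I _

theorem RPC_tw_nonneg (L : ℕ) (m : ℤ) : 0 ≤ tw L m := le_max_left _ _

theorem RPC_tw_le {L : ℕ} (hL : 1 ≤ L) (m : ℤ) : tw L m ≤ 3 := by
  have hL' : (1 : ℝ) ≤ L := by exact_mod_cast hL
  unfold tw
  refine max_le (by norm_num) ?_
  rw [div_le_iff₀ (by linarith)]
  have := abs_nonneg (m : ℝ)
  linarith

theorem RPC_tw_ge {L : ℕ} (hL : 1 ≤ L) {m : ℤ} (hm : |(m : ℝ)| ≤ L) : 1 ≤ tw L m := by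
  have hL' : (1 : ℝ) ≤ L := by exact_mod_cast hL
  unfold tw
  refine le_trans ?_ (le_max_right _ _)
  rw [le_div_iff₀ (by linarith)]
  linarith

/-- the sum of the weights -/
theorem RPC_sum {L L' : ℕ} (hL : 1 ≤ L) (hL' : 1 ≤ L') :
    ∑ i ∈ Icc (-(2 * L : ℤ)) (2 * L) ×ˢ Icc (-(2 * L' : ℤ)) (2 * L'), tw L i.1 * tw L' i.2 ≤
      225 * ((L : ℝ) * L') := by
  have h1 : ∀ i ∈ Icc (-(2 * L : ℤ)) (2 * L) ×ˢ Icc (-(2 * L' : ℤ)) (2 * L'),
      tw L i.1 * tw L' i.2 ≤ 9 := by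
    intro i _
    calc tw L i.1 * tw L' i.2 ≤ 3 * 3 :=
          mul_le_mul (RPC_tw_le hL _) (RPC_tw_le hL' _) (RPC_tw_nonneg _ _) (by norm_num)
      _ = 9 := by norm_num
  refine (sum_le_card_nsmul _ _ _ h1).trans ?_
  rw [nsmul_eq_mul, card_product, Int.card_Icc, Int.card_Icc]
  have h2 : (2 * (L : ℤ) + 1 - -(2 * (L : ℤ))).toNat ≤ 5 * L := by omega
  have h3 : (2 * (L' : ℤ) + 1 - -(2 * (L' : ℤ))).toNat ≤ 5 * L' := by omega
  have h4 := Nat.mul_le_mul h2 h3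
  have h5 : ((((2 * (L : ℤ) + 1 - -(2 * (L : ℤ))).toNat * (2 * (L' : ℤ) + 1 - -(2 * (L' : ℤ))).toNat : ℕ)) : ℝ) ≤
      ((5 * L * (5 * L') : ℕ) : ℝ) := by exact_mod_cast h4
  refine (mul_le_mul_of_nonneg_right h5 (by norm_num)).trans (le_of_eq ?_)
  push_cast
  ring

theorem RPC (hRE1 : RE1_stmt) (hRE2 : RE2_stmt) (hTR : TR_stmt) (hWFJ : WFJ_stmt) (hWWY : WWY_stmt) : RPC_stmt := by
  classical
  obtain ⟨C₀, hC₀, hW⟩ := hWWY
  refine ⟨450 + 4 * √C₀, by have := Real.sqrt_nonneg C₀; linarith, ?_⟩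
  intro n k p hn hk hp hcop
  have hco : IsCoprime ((n : ℤ) * 1) ((k : ℤ) * p) := by
    rw [mul_one]
    have h := Nat.isCoprime_iff_coprime.2 hcop
    push_cast at h
    exact h
  obtain ⟨α, β, γ, hres⟩ := hRE1 n k 1 1 1 p hco isCoprime_one_left isCoprime_one_left
  obtain ⟨c₀, hc₀⟩ := hRE2 n k 1 1 1 p α β γ hco isCoprime_one_left isCoprime_one_left hres 0 0
  refine ⟨(α, β, γ), hres, ?_⟩
  intro L L' T V F hL hL' hT hV hTV hF
  have hn0 : (0 : ℝ) < n := by exact_mod_cast hn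
  have hk0 : (0 : ℝ) < k := by exact_mod_cast hk
  have hp0 : (0 : ℝ) < p := by exact_mod_cast hp
  have hT0 : (0 : ℝ) < T := by exact_mod_cast hT
  have hT1 : (1 : ℝ) ≤ T := by exact_mod_cast hT
  have ht' : ∀ t : Tpl, ∃ z' : ℤ, t ∈ F → t.2.2.2 - (α * t.2.1 ^ 2 + β * t.2.1 * t.2.2.1 + γ * t.2.2.1 ^ 2 + c₀) =
      ((n : ℤ) ^ 3 * 1) * ((k : ℤ) * p) * z' := by
    intro t
    by_cases h : t ∈ F
    · obtain ⟨a1, a2, a3, -⟩ := hF t h
      have e1 : t.1.1 = n := congrArg Prod.fst a2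
      have e2 : t.1.2 = k := congrArg Prod.snd a2
      have c1 := a1.c1
      have c2 := (hTR t a1).2.1
      rw [e1, e2] at c1 c2
      have h1 := (hc₀ t.2.1 t.2.2.1 t.2.2.2).2 ⟨by
        rw [mul_one, one_mul, one_mul, one_mul, mul_zero, add_zero]
        exact c1, by
        obtain ⟨w, hw⟩ := a3
        refine ⟨w, ?_⟩
        rw [one_mul, one_mul, mul_zero, sub_zero, ← c2, hw]
        ring⟩
      obtain ⟨w, hw⟩ := h1
      exact ⟨w, fun _ => hw⟩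
    · exact ⟨0, fun h' => absurd h' h⟩
  choose zz hh using ht'
  set Q : ℝ := (n : ℝ) ^ 3 * k * p with hQ
  have hQ0 : 0 < Q := by positivity
  have hQV : 4 * T * V ≤ Q := hTV
  have hVQ : V < Q := by nlinarith
  have hz : ∀ t ∈ F, (t.2.2.2 : ℝ) / Q = (α * (t.2.1 : ℝ) ^ 2 + β * t.2.1 * t.2.2.1 + γ * (t.2.2.1 : ℝ) ^ 2) / Q +
      c₀ / Q + zz t := by
    intro t ht
    have h1 := hh t ht
    have h2 : (t.2.2.2 : ℝ) - (α * (t.2.1 : ℝ) ^ 2 + β * t.2.1 * t.2.2.1 + γ * (t.2.2.1 : ℝ) ^ 2 + c₀) =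
        ((n : ℝ) ^ 3 * 1) * ((k : ℝ) * p) * zz t := by exact_mod_cast h1
    have h3 : (t.2.2.2 : ℝ) = (α * (t.2.1 : ℝ) ^ 2 + β * t.2.1 * t.2.2.1 + γ * (t.2.2.1 : ℝ) ^ 2) + c₀ + Q * zz t := by
      rw [hQ]
      linarith
    rw [h3, add_div, add_div, mul_div_cancel_left₀ _ hQ0.ne']
  -- injectivity
  have hinj : Set.InjOn (fun t : Tpl => (t.2.1, t.2.2.1)) (F : Set Tpl) := by
    intro t htF t' htF' he
    have he' : (t.2.1, t.2.2.1) = (t'.2.1, t'.2.2.1) := he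
    have he1 : t.2.1 = t'.2.1 := (Prod.mk.inj he').1
    have he2 : t.2.2.1 = t'.2.2.1 := (Prod.mk.inj he').2
    have b3 := hz t htF
    have b3' := hz t' htF'
    obtain ⟨-, a2, -, -, -, a3, a4⟩ := hF t htF
    obtain ⟨-, a2', -, -, -, a3', a4'⟩ := hF t' htF'
    have a3r : (0 : ℝ) < t.2.2.2 := by exact_mod_cast a3
    have a3r' : (0 : ℝ) < t'.2.2.2 := by exact_mod_cast a3'
    have h1 : ((t.2.2.2 : ℝ) - t'.2.2.2) / Q = ((zz t - zz t' : ℤ) : ℝ) := by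
      rw [sub_div, b3, b3', he1, he2]
      push_cast
      ring
    have h2 : |((zz t - zz t' : ℤ) : ℝ)| < 1 := by
      rw [← h1, abs_div, abs_of_pos hQ0, div_lt_one hQ0, abs_lt]
      constructor <;> linarith
    have h3 : zz t - zz t' = 0 := by
      have : |zz t - zz t'| < 1 := by exact_mod_cast h2
      exact Int.abs_lt_one_iff.1 this
    rw [h3, Int.cast_zero, div_eq_zero_iff] at h1
    have h4 : (t.2.2.2 : ℝ) = t'.2.2.2 := by
      rcases h1 with h1 | h1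
      · linarith
      · exact absurd h1 hQ0.ne'
    have h5 : t.2.2.2 = t'.2.2.2 := by exact_mod_cast h4
    exact Prod.ext (a2.trans a2'.symm) (Prod.ext he1 (Prod.ext he2 h5))
  -- the index set
  set s := Icc (-(2 * L : ℤ)) (2 * L) ×ˢ Icc (-(2 * L' : ℤ)) (2 * L') with hs
  set X : ℤ × ℤ → ℝ := fun i => (α * (i.1 : ℝ) ^ 2 + β * i.1 * i.2 + γ * (i.2 : ℝ) ^ 2) / Q + c₀ / Q - (V / 2) / Q with hX
  set w : ℤ × ℤ → ℝ := fun i => tw L i.1 * tw L' i.2 with hw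
  have hw0 : ∀ i, 0 ≤ w i := fun i => mul_nonneg (RPC_tw_nonneg _ _) (RPC_tw_nonneg _ _)
  have hcard : (F.card : ℝ) ≤ ∑ i ∈ s.filter (fun i => nd (X i) * (8 * T) ≤ 1), w i := by
    rw [← card_image_of_injOn hinj]
    have h1 : F.image (fun t : Tpl => (t.2.1, t.2.2.1)) ⊆ s.filter (fun i => nd (X i) * (8 * T) ≤ 1) := by
      intro i hi
      obtain ⟨t, htF, rfl⟩ := mem_image.1 hi
      have b3 := hz t htF
      obtain ⟨-, -, -, s1, s2, a3, a4⟩ := hF t htF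
      have a3r : (0 : ℝ) < t.2.2.2 := by exact_mod_cast a3
      have s1' : |t.2.1| ≤ (L : ℤ) := by exact_mod_cast s1
      have s2' : |t.2.2.1| ≤ (L' : ℤ) := by exact_mod_cast s2
      rw [abs_le] at s1' s2'
      refine mem_filter.2 ⟨mem_product.2 ⟨mem_Icc.2 ⟨by simp only; omega, by simp only; omega⟩,
        mem_Icc.2 ⟨by simp only; omega, by simp only; omega⟩⟩, ?_⟩
      have h2 : X (t.2.1, t.2.2.1) - ((-zz t : ℤ) : ℝ) = ((t.2.2.2 : ℝ) - V / 2) / Q := by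
        have h3 : ((t.2.2.2 : ℝ) - V / 2) / Q = (t.2.2.2 : ℝ) / Q - (V / 2) / Q := by
          ring
        rw [h3, b3]
        simp only [hX]
        push_cast
        ring
      have h4 : nd (X (t.2.1, t.2.2.1)) ≤ (V / 2) / Q := by
        unfold nd
        refine (round_le _ (-zz t)).trans ?_
        rw [h2, abs_div, abs_of_pos hQ0]
        refine div_le_div_of_nonneg_right ?_ hQ0.le
        rw [abs_le]
        constructor <;> linarith
      calc nd (X (t.2.1, t.2.2.1)) * (8 * T) ≤ (V / 2) / Q * (8 * T) :=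
            mul_le_mul_of_nonneg_right h4 (by positivity)
        _ = (4 * T * V) / Q := by ring
        _ ≤ 1 := by rw [div_le_one hQ0]; exact hQV
    have h5 : ((F.image (fun t : Tpl => (t.2.1, t.2.2.1))).card : ℝ) ≤
        ∑ i ∈ F.image (fun t : Tpl => (t.2.1, t.2.2.1)), w i := by
      rw [← nsmul_one, ← sum_const]
      refine sum_le_sum fun i hi => ?_
      obtain ⟨t, htF, rfl⟩ := mem_image.1 hi
      obtain ⟨-, -, -, s1, s2, -, -⟩ := hF t htF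
      have r1 := RPC_tw_ge hL s1
      have r2 := RPC_tw_ge hL' s2
      show (1 : ℝ) ≤ tw L t.2.1 * tw L' t.2.2.1
      nlinarith
    exact h5.trans (sum_le_sum_of_subset_of_nonneg h1 fun i _ _ => hw0 i)
  have hfj := hWFJ s w X T hT (fun i _ => hw0 i)
  -- the exponential sums
  have hts : ∀ h : ℕ, ‖∑ i ∈ s, (w i : ℂ) * e (h * X i)‖ ≤ √C₀ * (√((L : ℝ) * L') *
      √((nearPts L L' (h * (α : ℝ) / Q) (h * (β : ℝ) / Q) (h * (γ : ℝ) / Q)).card : ℝ)) := by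
    intro h
    set c : Fin 5 → ℝ := ![(h : ℝ) * α / Q, (h : ℝ) * β / Q, (h : ℝ) * γ / Q, 0, 0] with hc
    have hc0 : c 0 = (h : ℝ) * α / Q := rfl
    have hc1 : c 1 = (h : ℝ) * β / Q := rfl
    have hc2 : c 2 = (h : ℝ) * γ / Q := rfl
    have hc3 : c 3 = 0 := rfl
    have hc4 : c 4 = 0 := rfl
    have h1 : ∑ i ∈ s, (w i : ℂ) * e (h * X i) = TS L L' c * e (h * (c₀ / Q - (V / 2) / Q)) := by
      unfold TS
      rw [hs, sum_product, sum_mul]
      refine sum_congr rfl fun m _ => ?_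
      rw [sum_mul]
      refine sum_congr rfl fun g _ => ?_
      have h2 : (h : ℝ) * X (m, g) = (c 0 * m ^ 2 + c 1 * m * g + c 2 * g ^ 2 + c 3 * m + c 4 * g) +
          h * (c₀ / Q - (V / 2) / Q) := by
        rw [hc0, hc1, hc2, hc3, hc4]
        simp only [hX]
        ring
      rw [h2, RPC_e_add]
      simp only [hw]
      ring
    rw [h1, norm_mul, RPC_e_norm, mul_one]
    have h3 := hW L L' c hL hL'
    rw [hc0, hc1, hc2] at h3
    have hLL : (0 : ℝ) ≤ (L : ℝ) * L' := by positivity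
    refine abs_le_of_sq_le_sq' ?_ (by positivity) |>.2
    rw [mul_pow, mul_pow, Real.sq_sqrt (by linarith), Real.sq_sqrt hLL, Real.sq_sqrt (by positivity)]
    refine h3.trans (le_of_eq ?_)
    ring
  have hsum := RPC_sum hL hL'
  have h1 : ∑ h ∈ Ico 1 T, ‖∑ i ∈ s, (w i : ℂ) * e (h * X i)‖ ≤ √C₀ * (√((L : ℝ) * L') * NR L L' T p n k (α, β, γ)) := by
    unfold NR
    rw [mul_sum, mul_sum]
    exact sum_le_sum fun h _ => hts h
  set S := NR L L' T p n k (α, β, γ) with hS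
  have hS0 : 0 ≤ S := sum_nonneg fun _ _ => Real.sqrt_nonneg _
  have h2 : (F.card : ℝ) ≤ 2 / T * (225 * ((L : ℝ) * L') + 2 * (√C₀ * (√((L : ℝ) * L') * S))) := by
    refine hcard.trans (hfj.trans ?_)
    refine mul_le_mul_of_nonneg_left ?_ (by positivity)
    exact add_le_add hsum (mul_le_mul_of_nonneg_left h1 (by norm_num))
  refine h2.trans ?_
  rw [div_mul_eq_mul_div, div_mul_eq_mul_div]
  refine div_le_div_of_nonneg_right ?_ hT0.le
  have h3 : 0 ≤ √C₀ := Real.sqrt_nonneg _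
  have h4 : 0 ≤ √((L : ℝ) * L') * S := mul_nonneg (Real.sqrt_nonneg _) hS0
  have h5 : (0 : ℝ) ≤ (L : ℝ) * L' := by positivity
  nlinarith [mul_nonneg h3 h5]

end Pool.Agent.T7
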